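import Pool.Agent.H857.MX.Master
import Pool.Agent.H857.MX.Good
import Pool.Graph.R_pool_sql_team_seeded_2aa45f1a.Q306.FG.Thms

/-!
# MP_c1eb4d_ag: finite generation of the étale cohomology of the cycle complexes of `A × Z`, for
arbitrary smooth projective varieties `Z` over finite fields and all abelian varieties `A` but a
set of isogeny classes of the exact order of magnitude of its size

Let `g i` (`i` in a finite set `I`) be positive integers. For a prime power `q = p ^ a` let
`families g p a` be the finite set of the families `f i` of Weil polynomials of degrees `2 g i`
relative to `q` with integral Newton polygons. It contains the families of the characteristic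
polynomials of the Frobenius endomorphisms of abelian varieties `A i` of dimensions `g i` over the
field with `q` elements (Weil), which determine the `A i` up to isogeny (Tate). It has about `q ^
(∑ g i (g i + 1) / 4)` elements.

Let the `ρ k` be `r` Weil numbers of weights less than `c` with slopes in `(1 / D) ℤ`, for
instance the eigenvalues of Frobenius on the `ℓ`-adic cohomology of a variety over the field with
`q` elements. The family `f` is exceptional if there is a multiplicative relation between roots of
the `f i`, the numbers `ρ k` and `q`, up to roots of unity, which does not come from the pairs of
conjugate roots `z`, `q / z`.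

1. The proportion of the exceptional families among all the families is of the exact order of
magnitude `∑ q ^ (- δ (g i) / 2)`, where `δ (g) = g` for `g ≠ 2` and `δ (2) = 1`: it is at most
`C` times, and at least `1 / C` times this sum. The constant `C` depends only on the `g i`, on
`r`, `c` and `D` - not on `p`, `q` and the `ρ k`.

2. Let `f` be a family which is not exceptional, and let `A` be an abelian variety over the field
with `Q = q ^ s` elements, `s > 0`, which is isogenous to a product of powers of abelian varieties
`A i` with characteristic polynomials `f i`. Let `Z` be **any** smooth projective variety over the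
field with `Q` elements such that

* the eigenvalues of Frobenius on the `ℓ`-adic cohomology of `Z` lie, up to powers, in the group
  generated by the `ρ k` and `q` (`Generated`);
* the motive of `Z` is finite-dimensional in the sense of Kimura and O'Sullivan. This is known for
  all varieties dominated by products of curves. It implies that the Frobenius endomorphism of `Z`
  satisfies, as a correspondence modulo rational equivalence, a polynomial equation with the same
  roots as on the cohomology; only this is used.

**For every `n < 0` the groups `H^i((A × Z)_et, ℤ^c(n))`, `i ≤ - 2 n + 1`, are finitely generated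
(question Q1 for `A × Z` and `n`) if and only if for all `n'` with `n - dim A ≤ n' ≤ n` the groups
`H^i(Z_et, ℤ^c(n'))`, `i ≤ - 2 n' + 1`, are finitely generated (question Q1 for `Z` and `n'`)**
(`CycleReduces`). In particular question Q1 for `A × Z` and all `n < 0` is equivalent to question
Q1 for `Z` and all `n < 0`, and question Q1 for `Z` and all `n < 0` follows from question Q1 for
the varieties `A × Z` and `n = - 1` only, if `dim A` is unbounded. No case of the conjectures of
Tate, Beilinson and Parshin is assumed. Here `H^i(X_et, ℤ^c(n)) = H^(2 dim X + i)(X_et, ℤ(dim X -
n))`.

What is used of `A` are known theorems (`IsAbelian`): `H(A)` is generated by `H^1`, Frobenius is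
diagonalizable on `H^1` (Weil), the theorem of Tate on divisors, and the nilpotence of
homologically trivial correspondences (Kimura). The motivic cohomology groups `H^i(X, ℚ(m))`, for
`X = Z` and `X = A × Z`, are the groups of bidegree `(i, m)` of a theory which is modelled by
`RelData`, with the formal properties in `IsTheory`: degrees, products with classes on `A`,
push-forward to `Z`, the projection formula, the operation of the correspondences of `A` and of
the Frobenius endomorphism of `Z`. The Frobenius endomorphism of `X` is the multiplication by `Q ^
m` on `H^i(X, ℚ(m))` (`IsPure`). The groups `H^i(X_et, ℤ(m))` and `H^i(X_et, ℚ/ℤ(m))` belong to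
the long exact sequences of `0 → ℤ(m) → ℚ(m) → ℚ/ℤ(m) → 0` (`EtaleData`, `IsEtale`). It is known
for smooth projective `X` (`IsSmoothProjective`) that `H^i(X_et, ℚ/ℤ(m))` is finite for `m > dim
X`, and for `m = dim X`, `i < 2 m` (Deligne, Gabber, Gros and Suwa), and that `H^(2 m)(X_et,
ℤ(m))` is finitely generated for `m ≥ dim X`.

The framework and the geometric part (`Q306.FG.cycleReduces`) are those of the theorem
`AllCMTypesTimes` of the library, which bounds the number of the exceptional slope types of CM
fields and asks that the eigenvalues of the other factor are unrelated to these fields. In other
theorems of the library the exceptional set of isogeny classes has a proportion `O (q ^ (-1 / 6)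
log q)`, without a lower bound, for other factors with eigenvalues in a group of small rank over a
fixed number field. New here are the arbitrary eigenvalues, the uniformity in `p` and the exact
order of magnitude of the exceptional set. The count is that of MP_557161_ag: the slopes bound the
exponents of the relations, up to proportionality, and each relation is a nontrivial algebraic
equation for the coefficients on almost all pencils of Weil polynomials, by the expansions of the
roots at infinity.
-/

set_option autoImplicit false

namespace Pool.Agent.Results.MP_c1eb4d_ag.SharpExceptionalSet

open Pool.Agent.H857.SX Pool.Agent.H857.MX Pool.Agent.Q306.FG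

/-- **The exceptional set.** -/
theorem result {I : Type} [Fintype I] (g : I → ℕ) (hg : ∀ i, 0 < g i) (r D c : ℕ) (hD : 0 < D) :
    ∃ C : ℝ, 0 < C ∧ ∀ (p : ℕ) [Fact p.Prime] (a : ℕ), 0 < a →
      ((families g p a).Finite ∧
        ∏ i, Real.sqrt ((p : ℝ) ^ a) ^ (g i * (g i + 1) / 2) ≤ C * (families g p a).ncard ∧
        (families g p a).ncard ≤ C * ∏ i, Real.sqrt ((p : ℝ) ^ a) ^ (g i * (g i + 1) / 2)) ∧
      ∀ (w : Fin r → ℕ) (ρ : Fin r → ℂ), (∀ k, w k < c ∧ IsWeilNumber p a D (w k) (ρ k)) →
        (({f ∈ families g p a | ¬ Independent f (p ^ a) ρ}.ncard : ℝ) ≤
            C * (rate g ((p : ℝ) ^ a) * (families g p a).ncard) ∧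
          rate g ((p : ℝ) ^ a) * (families g p a).ncard ≤
            C * {f ∈ families g p a | ¬ Independent f (p ^ a) ρ}.ncard) ∧
        ∀ f ∈ families g p a, Independent f (p ^ a) ρ →
          CycleReduces (RootsIn (Generated (p ^ a) ρ)) (p ^ a) f :=
  Pool.Agent.H857.MX.master g hg r D c hD (fun q f R => CycleReduces (RootsIn R) q f)
    fun _ _ _ hq _ h0 hR => cycleReduces hq (good_of_noRel hR h0)

end Pool.Agent.Results.MP_c1eb4d_ag.SharpExceptionalSet
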